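import Pool.Agent.J4H1.JP.Stm
import Pool.Agent.N786.D.Cut
import Pool.Agent.W169.HF.Defs

set_option autoImplicit false

/-!
# Project DN (helper2): density theorem and local rigidity for the de Bruijn-Newman flow

TARGET. `H_t(z) = ∫_0^∞ e^{tu²} Φ(u) cos(zu) du`. For every `ε > 0` there are `c, C > 0`: for `T ≥ C`, `C ≤ t log² T`, `t log T ≤ c` all but
`C T log T exp (-c t log² T)` of the zeros `z` of `H_t` with `T ≤ Re z ≤ 2T` (with multiplicity) are real, simple, and the next zero is at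
distance `(1 ± ε) 4π / log T`.

Notation: `Xi w = ξ(1/2 + w)`, `fy y w = ξ(1/2 + iy + w)`, `heat t F = e^{tD²} F`, `H_t(z) = (1/8) (heat (t/4) Xi) (iz/2)`, `L = log T`,
the time in the `s`-plane is `τ/L²`.

This file: definitions and the statements (`def S_xxx : Prop`) of the independent parts.

* `S_MM` (mixed mollified second moment), `S_MM → S_Z` (boxes), `S_G`, `S_Gtop`, `S_Tl` (gamma factor), `S_CNT` (abstract counting),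
  `S_H`, `S_X` (facts on `H_t`), `S_D1`, `S_D2` (deterministic part: helper2).
-/

namespace Pool.Agent.J4H2.DN

open Complex MeasureTheory Filter Topology Set
open scoped ComplexConjugate
open Pool.Agent.J4H1.JP (Xi)
open Pool.Agent.N786.D (Cutf)
open Pool.Agent.W169.HF (heat Slow)

noncomputable section

/-! ## Objects -/

/-- the kernel of de Bruijn and Newman -/
def Phi (u : ℝ) : ℝ := ∑' n : ℕ,
  (2 * Real.pi ^ 2 * ((n : ℝ) + 1) ^ 4 * Real.exp (9 * u) -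
    3 * Real.pi * ((n : ℝ) + 1) ^ 2 * Real.exp (5 * u)) *
    Real.exp (-(Real.pi * ((n : ℝ) + 1) ^ 2 * Real.exp (4 * u)))

/-- the family of de Bruijn and Newman -/
def Hd (t : ℝ) (z : ℂ) : ℂ :=
  ∫ u in Set.Ioi (0 : ℝ), ((Real.exp (t * u ^ 2) * Phi u : ℝ) : ℂ) * Complex.cos (z * u)

/-- `ξ(1/2 + iy + w)` -/
def fy (y : ℝ) (w : ℂ) : ℂ := Xi (I * y + w)

/-- The profile of a function `f` (`= fy y`) at the scales `≥ K/L`. -/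
structure Pro (K L η : ℝ) (f : ℂ → ℂ) : Prop where
  ne : ∀ w : ℂ, K / (8 * L) ≤ w.re → w.re ≤ 64 → |w.im| ≤ 8 * K / L → f w ≠ 0 ∧ ‖logDeriv f w - L / 2‖ ≤ η * L
  near : ∀ w : ℂ, 0 ≤ w.re → w.re ≤ K / (8 * L) → |w.im| ≤ 8 * K / L →
    ‖f w‖ ≤ Real.exp (η * K) * ‖f (((K / (8 * L) : ℝ) : ℂ) + w.im * I)‖

/-- growth far to the right -/
def Tl (L C₀ : ℝ) (f : ℂ → ℂ) : Prop := ∀ u v : ℝ, 64 ≤ u → |v| ≤ 64 →
  ‖f (u + v * I)‖ ≤ ‖f (64 + v * I)‖ * Real.exp (C₀ * (u - 64) * (L + u))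

/-- `w` is on the axis, simple, and the next zero of `G` is at distance about `2π/L` -/
def Gd (G : ℂ → ℂ) (L ε : ℝ) (w : ℂ) : Prop := w.re = 0 ∧ deriv G w ≠ 0 ∧ ∃ v : ℝ, w.im < v ∧ G (v * I) = 0 ∧
  (∀ z : ℂ, G z = 0 → w.im < z.im → v ≤ z.im) ∧ |(v - w.im) * L / (2 * Real.pi) - 1| ≤ ε

/-- the mollifier, `T = exp R` -/
def Mo (θ : ℝ → ℝ) (β R : ℝ) (s : ℂ) : ℂ := ∑ n ∈ Finset.Icc 1 ⌊Real.exp (β * R)⌋₊,
  ((ArithmeticFunction.moebius n : ℤ) : ℂ) * (θ (Real.log n / R) : ℂ) * (n : ℂ) ^ (-s)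

/-- good behaviour of zeta near `1/2 + iy` at all scales from `K/L` on -/
def GZ (K L η y : ℝ) : Prop :=
  (∀ s : ℂ, 1 / 2 + K / (8 * L) ≤ s.re → s.re ≤ 2 → |s.im - y| ≤ 8 * K / L →
    riemannZeta s ≠ 0 ∧ ‖logDeriv riemannZeta s‖ ≤ η * L) ∧
  (∀ s : ℂ, 1 / 2 ≤ s.re → s.re ≤ 1 / 2 + K / (8 * L) → |s.im - y| ≤ 8 * K / L →
    ‖riemannZeta s‖ ≤ Real.exp (η * K) * ‖riemannZeta (((1 / 2 + K / (8 * L) : ℝ) : ℂ) + s.im * I)‖)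

/-! ## Z. zeta -/

/-- MM: the mixed mollified second moment. PROOF. As `Pool/Agent/N786/D` (`mean_near` in `Asm2.lean`): `SH.bound` (Sup3.lean) with one index,
`L s = ζ(s) (s-1)/(s+1)`, `D s = (s-1)/(s+1) ∑ φ(log n/R) n^{-s}`, `φ` a cut-off `Cutf α₁ α₂`, `1/2 < α' < α₁`, `α₂ + β₂ ≤ 1`, `R = log T`, `H = T`;
`ls1`, `ls2` as `ls_JJ` (Pol2.lean) with `bc_sq` (Cnv.lean) for the monoid `ℕ` and `Pool.Agent.J4H5.MV1` instead of the large sieve;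
`ca` from `cauchy_le` (Shf.lean), whose proof works for functions differentiable on `{Re z > a'}`, `a' < a`; `fe` from the functional equation
(`gam_ratio` in Gra.lean). The constants must be uniform in `κ/R ≤ δ ≤ 1/8` (the `small` condition gets better for larger `δ`). -/
def S_MM : Prop := ∃ (θ : ℝ → ℝ) (β₁ β₂ κ C : ℝ) (k : ℕ), 0 < β₁ ∧ β₁ < β₂ ∧ β₂ ≤ 1 / 2 ∧ Cutf β₁ β₂ θ ∧ 1 ≤ κ ∧ 1 ≤ C ∧
  ∀ T : ℝ, C ≤ T → ∀ δ : ℝ, κ / Real.log T ≤ δ → δ ≤ 1 / 8 → ∀ v₁ v₂ : ℝ,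
    ∫⁻ t in Icc T (2 * T), ENNReal.ofReal (‖riemannZeta (((1 / 2 + δ : ℝ) : ℂ) + ((t + v₁ : ℝ) : ℂ) * I)‖ ^ 2 *
      ‖Mo θ β₂ (Real.log T) (((1 / 2 + δ : ℝ) : ℂ) + ((t + v₂ : ℝ) : ℂ) * I)‖ ^ 2) ≤
    ENNReal.ofReal (C * T * (1 + Real.log T * |v₁ - v₂|) ^ k * (1 + |v₁| + |v₂|) ^ k)

/-- Z: for most `y` zeta is regular near `1/2 + iy`. PROOF from `S_MM` (`r = K/L`). (1) Kernel bound `cauchy_le` (N786/D/Shf.lean) for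
`g = ζ(s)(s-1)/(s+1)`, `g = M` and (with the factor `exp (-β₁ R (Re s - a))`) for `g = (ζM - 1)(s-1)/(s+1)`, from the line `a = 1/2 + min(K/(32L), 1/8)`
(resp. from `a = 1/2 - κ' r` with the functional equation, cost `exp (2 κ' K)`, `κ'` small, for the points near the line):
`sup_{box} ‖g‖ ≤ C ∫ ‖g(a + iv)‖ kap(v - y) dv`, box `= {Re s ≥ a + r/32, |Im s - y| ≤ 9r}`.
So `∫_T^{2T} sup_{w, s' ∈ box} ‖ζ(w) M(s')‖² dy ≤ C (1+K)^k T` and `∫_T^{2T} sup_{box} ‖ζM - 1‖² dy ≤ C exp (-cK) T`.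
(2) Markov: off a set of measure `C exp (-cK) T`: `‖ζM - 1‖ ≤ 1/2` and `‖ζ(w) M(s')‖ ≤ exp (η' K)` on the box, so `ζ ≠ 0` and
`‖ζ(w)/ζ(s')‖ ≤ 2 exp (η' K)`; Borel-Caratheodory in discs of radius `r/32`: `‖ζ'/ζ‖ ≤ C η' L`. (3) All dyadic scales `2^j K` up to `c₁ L`, then
`Re s ≥ 3/2` trivially. -/
def S_Z : Prop := ∀ η : ℝ, 0 < η → ∃ c C c₁ : ℝ, 0 < c ∧ 1 ≤ C ∧ 0 < c₁ ∧ ∀ T K : ℝ, C ≤ T → C ≤ K → K ≤ c₁ * Real.log T →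
  volume {y : ℝ | T ≤ y ∧ y ≤ 2 * T ∧ ¬ GZ K (Real.log T) η y} ≤ ENNReal.ofReal (C * T * Real.exp (-(c * K)))

/-! ## G. the gamma factor -/

/-- G: from zeta to `ξ`; `logDeriv Xi (iy + w) = (1/2) log (y/2π) + O(1) + (ζ'/ζ)(1/2 + iy + w)`; the gamma factor increases with `Re w`. -/
def S_G : Prop := ∀ η : ℝ, 0 < η → ∃ C : ℝ, 1 ≤ C ∧ ∀ T K y : ℝ, C ≤ T → 0 < K → K ≤ Real.log T → T ≤ y → y ≤ 2 * T →
  GZ K (Real.log T) (η / 2) y → Pro K (Real.log T) η (fy y)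

/-- Gtop: the profile at the scale `8` always holds. `‖ζ(1/2 + x + iv)‖ ≤ C (log T) T^{1/2 - x}` for `0 ≤ x ≤ 1/2`, gamma ratio `T^{-(1-x)/2}`. -/
def S_Gtop : Prop := ∀ η : ℝ, 0 < η → ∃ C : ℝ, 1 ≤ C ∧ ∀ T y : ℝ, C ≤ T → T ≤ y → y ≤ 2 * T →
  Pro (8 * Real.log T) (Real.log T) η (fy y)

/-- Tl: growth to the right -/
def S_Tl : Prop := ∃ C₀ : ℝ, 1 ≤ C₀ ∧ ∀ T y : ℝ, C₀ ≤ T → T ≤ y → y ≤ 2 * T → Tl (Real.log T) C₀ (fy y)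

/-! ## H. facts on the flow -/

/-- H: `e^{tu²} cos(zu)` is the Gaussian average of `cos((z + 2i√t v)u)`; `Xi` as cosine transform: `Pool.Agent.J4H1.JP.Xi_eq_FT`, `H401R2`. -/
def S_H : Prop := ∀ t : ℝ, 0 < t → ∀ z : ℂ, Hd t z = (1 / 8) * heat (t / 4) Xi (I * z / 2)

/-- X: `Xi` is slow and symmetric, and (de Bruijn, `Pool.Agent.W169.HF.db_all`) the zeros stay in the strip. -/
def S_X : Prop := Slow Xi ∧ (∀ w : ℂ, Xi w = conj (Xi (-conj w))) ∧ (∀ w : ℂ, Xi (-w) = Xi w) ∧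
  ∀ t : ℝ, 0 < t → (∃ w, heat t Xi w ≠ 0) ∧ ∀ w : ℂ, heat t Xi w = 0 → |w.re| ≤ 1 / 2

/-! ## C. counting -/

/-- CNT: abstract counting. PROOF. Divide `[T, 2T]` into equal windows of length between `h/2` and `h = τ/(100L)`. A window is of class `0` if it
contains `y` with `G τ y` (no points of `S`), of class `j ≥ 1` if it contains `y` with `G (2^j τ) y`, `2^j τ ≤ c₁ L`, but none with `G (2^{j-1} τ) y`
(at most `C 2^j τ` points; at most `2 C T exp (-c 2^{j-1} τ)/h` windows), and all the others (`C L` points each, at most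
`2 C T exp (-c c₁ L/2)/h` windows). -/
def S_CNT : Prop := ∀ c C c₁ : ℝ, 0 < c → 1 ≤ C → 0 < c₁ → ∃ c' C' : ℝ, 0 < c' ∧ 1 ≤ C' ∧
  ∀ (L T τ : ℝ) (G : ℝ → ℝ → Prop) (S : Finset ℂ) (m : ℂ → ℝ), C' ≤ L → T = Real.exp L → C ≤ τ → τ ≤ c₁ * L →
    (∀ K : ℝ, C ≤ K → K ≤ c₁ * L → volume {y : ℝ | T ≤ y ∧ y ≤ 2 * T ∧ ¬ G K y} ≤ ENNReal.ofReal (C * T * Real.exp (-(c * K)))) →
    (∀ z, 0 ≤ m z) → (∀ z ∈ S, T ≤ z.im ∧ z.im ≤ 2 * T) →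
    (∀ y : ℝ, T ≤ y → y ≤ 2 * T → G τ y → ∀ z ∈ S, τ / (100 * L) < |z.im - y|) →
    (∀ K y : ℝ, τ ≤ K → K ≤ c₁ * L → T ≤ y → y ≤ 2 * T → G K y →
      ∑ z ∈ S with |z.im - y| ≤ τ / (100 * L), m z ≤ C * K) →
    (∀ y : ℝ, T ≤ y → y ≤ 2 * T → ∑ z ∈ S with |z.im - y| ≤ τ / (100 * L), m z ≤ C * L) →
    ∑ z ∈ S, m z ≤ C' * T * L * Real.exp (-(c' * τ))

/-! ## D. the deterministic part (helper2) -/

/-- D1: in good windows all zeros are on the line, simple and equally spaced. -/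
def S_D1 : Prop := ∀ ε C₀ : ℝ, 0 < ε → 1 ≤ C₀ → ∃ η τ₀ c₁ L₀ : ℝ, 0 < η ∧ 1 ≤ τ₀ ∧ 0 < c₁ ∧ 1 ≤ L₀ ∧
  ∀ (L τ : ℝ) (f : ℂ → ℂ), L₀ ≤ L → τ₀ ≤ τ → τ ≤ c₁ * L → Slow f → (∀ w : ℂ, f w = conj (f (-conj w))) →
    (∀ w : ℂ, heat (τ / L ^ 2) f w = 0 → |w.re| ≤ 1 / 2) → Tl L C₀ f → Pro τ L η f →
    ∀ w : ℂ, heat (τ / L ^ 2) f w = 0 → |w.im| ≤ τ / (100 * L) → Gd (heat (τ / L ^ 2) f) L ε w

/-- D2: the number of zeros near a point with the profile at the scale `K`. -/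
def S_D2 : Prop := ∀ C₀ : ℝ, 1 ≤ C₀ → ∃ η τ₀ c₁ L₀ C : ℝ, 0 < η ∧ 1 ≤ τ₀ ∧ 0 < c₁ ∧ 1 ≤ L₀ ∧ 1 ≤ C ∧
  ∀ (L τ K : ℝ) (f : ℂ → ℂ), L₀ ≤ L → τ₀ ≤ τ → τ ≤ c₁ * L → τ ≤ K → K ≤ 8 * L → Slow f → (∀ w : ℂ, f w = conj (f (-conj w))) →
    Tl L C₀ f → Pro K L η f → ∀ S : Finset ℂ,
    (∀ w ∈ S, heat (τ / L ^ 2) f w = 0 ∧ |w.re| ≤ 1 / 2 ∧ |w.im| ≤ τ / (100 * L)) →
    ∑ w ∈ S, (analyticOrderNatAt (heat (τ / L ^ 2) f) w : ℝ) ≤ C * K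

end

end Pool.Agent.J4H2.DN
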